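import Mathlib
import Pool.Agent.N580.NS.Stm

/-!
# A simple factor is induced by the centralizer of `R`, or acts nontrivially on some Frattini
quotient
-/

namespace Pool.Agent.N600.NSG

open Subgroup Pool.Agent.N580 Pool.Agent.N580.NS
open scoped commutatorElement

section GA

variable {T : Type} [Group T] {R : Subgroup T} {ι : Type} {A : ι → Subgroup T}

theorem perfect_sup (hF : Fam R A) (i : ι) : ⁅A i, A i⁆ ⊔ R = A i := by
  have hR := hF.hR
  have hA := hF.hA i
  have h1 : ⁅A i, A i⁆ ⊔ R ≤ A i := sup_le (A i).commutator_le_self (hF.le i)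
  have hN : (⁅A i, A i⁆ ⊔ R).Normal := inferInstance
  rcases hF.simple i (⁅A i, A i⁆ ⊔ R) le_sup_right h1 (fun a _ x hx => hN.conj_mem x hx a) with h | h
  · exact absurd (le_sup_left.trans h.le) (hF.nonab i)
  · exact h

theorem trick' (hF : Fam R A) (i : ι) {X Y : Subgroup T} (hXn : X.Normal) (hYn : Y.Normal)
    (hX : A i ≤ X ⊔ R) (hY : A i ≤ Y ⊔ R) : A i ≤ ⁅X, Y⁆ ⊔ R := by
  have hR := hF.hR
  have hN : (⁅X, Y⁆ ⊔ R).Normal := inferInstance
  have hkey : ⁅X ⊔ R, Y ⊔ R⁆ ≤ ⁅X, Y⁆ ⊔ R := by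
    set f := QuotientGroup.mk' (⁅X, Y⁆ ⊔ R) with hf
    have hker : f.ker = ⁅X, Y⁆ ⊔ R := QuotientGroup.ker_mk' _
    have hRb : R.map f = ⊥ := by
      rw [Subgroup.map_eq_bot_iff, hker]
      exact le_sup_right
    have h1 : (⁅X ⊔ R, Y ⊔ R⁆).map f = ⊥ := by
      rw [Subgroup.map_commutator, Subgroup.map_sup, Subgroup.map_sup, hRb, sup_bot_eq, sup_bot_eq,
        ← Subgroup.map_commutator, Subgroup.map_eq_bot_iff, hker]
      exact le_sup_left
    rwa [Subgroup.map_eq_bot_iff, hker] at h1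
  calc A i = ⁅A i, A i⁆ ⊔ R := (perfect_sup hF i).symm
    _ ≤ ⁅X ⊔ R, Y ⊔ R⁆ ⊔ R := sup_le_sup_right (Subgroup.commutator_mono hX hY) R
    _ ≤ ⁅X, Y⁆ ⊔ R := sup_le hkey le_sup_right

theorem trick (hF : Fam R A) (i : ι) {X Y : Subgroup T} (hXn : X.Normal) (hYn : Y.Normal)
    (hX : A i ≤ X ⊔ R) (hY : A i ≤ Y ⊔ R) : A i ≤ (X ⊓ Y) ⊔ R :=
  (trick' hF i hXn hYn hX hY).trans (sup_le_sup_right (Subgroup.commutator_le_inf X Y) R)

theorem inf_fin_normal (X : ℕ → Subgroup T) (t : Finset ℕ) (hn : ∀ q ∈ t, (X q).Normal) :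
    (⨅ q ∈ t, X q).Normal := by
  constructor
  intro x hx g
  simp only [Subgroup.mem_iInf] at hx ⊢
  intro q hq
  exact (hn q hq).conj_mem x (hx q hq) g

theorem inf_fin (hF : Fam R A) (i : ι) (X : ℕ → Subgroup T) (t : Finset ℕ)
    (hn : ∀ q ∈ t, (X q).Normal) (h : ∀ q ∈ t, A i ≤ X q ⊔ R) :
    A i ≤ (⨅ q ∈ t, X q) ⊔ R := by
  classical
  induction t using Finset.induction_on with
  | empty => simp
  | insert q t hqt ih =>
    rw [Finset.iInf_insert]
    have hn' : ∀ p ∈ t, (X p).Normal := fun p hp => hn p (Finset.mem_insert_of_mem hp)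
    exact trick hF i (hn q (Finset.mem_insert_self _ _)) (inf_fin_normal X t hn')
      (h q (Finset.mem_insert_self _ _)) (ih hn' (fun p hp => h p (Finset.mem_insert_of_mem hp)))

/-- a perfect subgroup which is a `q`-group is trivial -/
theorem eq_bot_of_perfect_pgroup {X : Type} [Group X] [Finite X] {q : ℕ} (hq : q.Prime)
    (B : Subgroup X) (hB : IsPGroup q B) (hp : ⁅B, B⁆ = B) : B = ⊥ := by
  have : Fact q.Prime := ⟨hq⟩
  have hnil : Group.IsNilpotent B := hB.isNilpotent
  by_contra hne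
  have : Nontrivial B := by
    rw [Subgroup.nontrivial_iff_ne_bot]
    exact hne
  have h1 := Group.IsSolvable.commutator_lt_top_of_nontrivial B
  apply h1.ne
  have h2 : (commutator B).map B.subtype = B := by
    rw [commutator_def, Subgroup.map_commutator, ← MonoidHom.range_eq_map, Subgroup.range_subtype, hp]
  have h3 : (⊤ : Subgroup B).map B.subtype = B := by
    rw [← MonoidHom.range_eq_map, Subgroup.range_subtype]
  exact Subgroup.map_injective B.subtype_injective (h2.trans h3.symm)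

variable [Finite T]

/-- Step (2) -/
theorem step2 (hF : Fam R A) (i : ι) {q : ℕ} (hq : q.Prime) {D : Subgroup T} (hD : D.Normal)
    (hDA : D ≤ A i) (hAD : A i ≤ D ⊔ R) (hDC : D ≤ CQ T q) :
    A i ≤ Subgroup.centralizer (OO T q : Set T) ⊔ R := by
  have hR := hF.hR
  have hA := hF.hA i
  have hqf : Fact q.Prime := ⟨hq⟩
  have hO := OO_normal (G := T) q
  set C := Subgroup.centralizer (OO T q : Set T) with hC
  have hCn : C.Normal := by
    rw [hC]; infer_instance
  have hN : ((D ⊓ C) ⊔ R).Normal := inferInstance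
  have hNA : (D ⊓ C) ⊔ R ≤ A i := sup_le (inf_le_left.trans hDA) (hF.le i)
  rcases hF.simple i ((D ⊓ C) ⊔ R) le_sup_right hNA (fun a _ x hx => hN.conj_mem x hx a) with h | h
  swap
  · rw [← h]
    exact sup_le_sup_right inf_le_right R
  exfalso
  have hDCR : D ⊓ C ≤ R := le_sup_left.trans h.le
  have hpg : ∀ d ∈ D, ∃ k : ℕ, d ^ q ^ k ∈ R := by
    intro d hd
    obtain ⟨k, m, hm, hkm⟩ := Nat.exists_eq_pow_mul_and_not_dvd (orderOf_pos d).ne' q hq.ne_one
    refine ⟨k, ?_⟩
    have hle : Subgroup.zpowers (d ^ q ^ k) ≤ R := by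
      refine le_of_pgroups fun r hr P hP hPr => ?_
      have hPD : P ≤ D := hP.trans (by
        rw [Subgroup.zpowers_le]
        exact pow_mem hd _)
      by_cases hrq : q = r
      · subst hrq
        have h1 : Nat.card (Subgroup.zpowers (d ^ q ^ k)) = m := by
          rw [Nat.card_zpowers, orderOf_pow, hkm, Nat.gcd_eq_right (dvd_mul_right _ _),
            Nat.mul_div_cancel_left _ (pow_pos hq.pos k)]
        obtain ⟨n, hn⟩ := IsPGroup.iff_card.1 hPr
        have h2 : q ^ n ∣ m := by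
          rw [← hn, ← h1]
          exact Subgroup.card_dvd_of_le hP
        have hn0 : n = 0 := by
          by_contra hn0
          exact hm ((dvd_pow_self q hn0).trans h2)
        rw [hn0, pow_zero] at hn
        rw [Subgroup.card_eq_one.1 hn]
        exact bot_le
      · have hrf : Fact r.Prime := ⟨hr⟩
        refine le_trans (le_inf hPD ?_) hDCR
        intro x hx
        rw [hC, Subgroup.mem_centralizer_iff]
        intro y hy
        exact (CQ_commute hrq hPr (hPD.trans hDC) hx hy).symm.eq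
    exact hle (Subgroup.mem_zpowers _)
  set f := QuotientGroup.mk' R with hf
  have hker : f.ker = R := QuotientGroup.ker_mk' _
  have hRb : R.map f = ⊥ := by
    rw [Subgroup.map_eq_bot_iff, hker]
  have hAf : (A i).map f = D.map f := by
    apply le_antisymm
    · have := Subgroup.map_mono (f := f) hAD
      rwa [Subgroup.map_sup, hRb, sup_bot_eq] at this
    · exact Subgroup.map_mono hDA
  have hAp : IsPGroup q ((A i).map f) := by
    rw [hAf]
    rintro ⟨_, d, hd, rfl⟩
    obtain ⟨k, hk⟩ := hpg d hd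
    refine ⟨k, Subtype.ext ?_⟩
    change (f d) ^ q ^ k = 1
    rw [← map_pow, ← MonoidHom.mem_ker, hker]
    exact hk
  have hperf : ⁅(A i).map f, (A i).map f⁆ = (A i).map f := by
    have h1 := congrArg (Subgroup.map f) (perfect_sup hF i)
    rwa [Subgroup.map_sup, hRb, sup_bot_eq, Subgroup.map_commutator] at h1
  have h0 := eq_bot_of_perfect_pgroup hq _ hAp hperf
  rw [Subgroup.map_eq_bot_iff, hker] at h0
  exact hF.nonab i ((A i).commutator_le_self.trans h0)

theorem OO_map_le (hR : R.Normal) {q : ℕ} : (OO R q).map R.subtype ≤ OO T q := by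
  have hO := OO_normal (G := R) q
  refine le_OO_of_normal hR ?_ ((OO_pgroup q).map _) ?_
  · rintro _ ⟨x, _, rfl⟩
    exact x.2
  · rintro b hb _ ⟨x, hx, rfl⟩
    exact ⟨⟨b, hb⟩ * x * ⟨b, hb⟩⁻¹, hO.conj_mem x hx _, rfl⟩

theorem ga : GA := by
  intro T _ _ R ι _ A hF hsol _ s hs hRs i
  by_cases hex : ∃ q ∈ s, ¬ A i ≤ CQ T q ⊔ R
  · exact Or.inr hex
  left
  push Not at hex
  have hR := hF.hR
  have hA := hF.hA i
  -- step 1
  have hCQn : ∀ q ∈ s, (CQ T q).Normal := fun q _ => CQ_normal q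
  have hIn := inf_fin_normal (fun q => CQ T q) s hCQn
  have hD0 : A i ≤ (⨅ q ∈ s, CQ T q) ⊔ R := inf_fin hF i _ s hCQn hex
  have hAD : A i ≤ (A i ⊓ ⨅ q ∈ s, CQ T q) ⊔ R := trick hF i hA hIn le_sup_left hD0
  have hDn : (A i ⊓ ⨅ q ∈ s, CQ T q).Normal := inferInstance
  -- step 2
  have h2 : ∀ q ∈ s, A i ≤ Subgroup.centralizer (OO T q : Set T) ⊔ R := fun q hq =>
    step2 hF i (hs q hq) hDn inf_le_left hAD (inf_le_right.trans (iInf₂_le q hq))
  have hCn : ∀ q ∈ s, (Subgroup.centralizer (OO T q : Set T)).Normal := fun q _ => by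
    have hO := OO_normal (G := T) q
    infer_instance
  have hE0 := inf_fin hF i _ s hCn h2
  set E : Subgroup T := ⨅ q ∈ s, Subgroup.centralizer (OO T q : Set T) with hE
  have hEn : E.Normal := inf_fin_normal _ s hCn
  have hEE : A i ≤ ⁅E, E⁆ ⊔ R := trick' hF i hEn hEn hE0 hE0
  -- step 3
  have hER : E ⊓ R ≤ ZZ T s := by
    refine le_of_pgroups fun r hr P hP hPr => ?_
    have hPR : P ≤ R := hP.trans inf_le_right
    have hPE : P ≤ E := hP.trans inf_le_left
    have hrf : Fact r.Prime := ⟨hr⟩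
    by_cases hrs : r ∈ s
    · have hP' : IsPGroup r (P.subgroupOf R) :=
        hPr.of_equiv (Subgroup.subgroupOfEquivOfLe hPR).symm
      have h3 : P.subgroupOf R ≤ OO R r := by
        refine core_E s hs hRs hr (fun q hq x hx => ?_) hP'
        rw [mem_CQ]
        intro d hd
        have h4 : (d : T) ∈ OO T q := OO_map_le hR ⟨d, hd, rfl⟩
        have h5 : (x : T) ∈ Subgroup.centralizer (OO T q : Set T) :=
          (iInf₂_le q hq : E ≤ _) (hPE hx)
        have h6 : ⁅x, d⁆ = 1 := by
          rw [commutatorElement_eq_one_iff_mul_comm]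
          apply Subtype.ext
          exact ((Subgroup.mem_centralizer_iff.1 h5) d h4).symm
        rw [h6]
        exact one_mem _
      have h4 : P ≤ (OO R r).map R.subtype := by
        rw [← Subgroup.map_subgroupOf_eq_of_le hPR]
        exact Subgroup.map_mono h3
      exact (h4.trans (OO_map_le hR)).trans (le_iSup₂_of_le r hrs le_rfl)
    · have h3 : P = ⊥ := by
        obtain ⟨n, hn⟩ := IsPGroup.iff_card.1 hPr
        have hn0 : n = 0 := by
          by_contra hn0
          apply hrs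
          apply hRs r hr
          exact (dvd_pow_self r hn0).trans (hn ▸ Subgroup.card_dvd_of_le hPR)
        rw [hn0, pow_zero] at hn
        exact Subgroup.card_eq_one.1 hn
      rw [h3]
      exact bot_le
  have hZE : ZZ T s ≤ Subgroup.centralizer (E : Set T) := by
    refine ZZ_le_centralizer s fun q hq x hx => ?_
    rw [Subgroup.mem_centralizer_iff]
    intro y hy
    have h5 : y ∈ Subgroup.centralizer (OO T q : Set T) := (iInf₂_le q hq : E ≤ _) hy
    exact ((Subgroup.mem_centralizer_iff.1 h5) x hx).symm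
  have h3 : ⁅⁅E, R⁆, E⁆ = ⊥ := by
    rw [Subgroup.commutator_eq_bot_iff_le_centralizer]
    exact ((Subgroup.commutator_le_inf E R).trans hER).trans hZE
  have h4 : ⁅⁅E, E⁆, R⁆ = ⊥ := by
    refine Subgroup.commutator_commutator_eq_bot_of_rotate h3 ?_
    rw [Subgroup.commutator_comm R E]
    exact h3
  rw [Subgroup.commutator_eq_bot_iff_le_centralizer] at h4
  exact hEE.trans (sup_le_sup_right h4 R)

end GA

end Pool.Agent.N600.NSG
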