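import Mathlib
import Pool.Agent.N580.NS.Stm

/-!
# The central product generated by the commutator subgroups of centralising covers
-/

namespace Pool.Agent.N600.NSC

open Subgroup Pool.Agent.N580 Pool.Agent.N580.NS
open scoped commutatorElement

section Basic

/-- the number of commutators -/
theorem card_commutatorSet_le (G : Type) [Group G] [Finite G] :
    Nat.card (commutatorSet G) ≤ (center G).index ^ 2 := by
  classical
  have hkey' : ∀ a b z w : G, z ∈ center G → w ∈ center G → ⁅a * z, b * w⁆ = ⁅a, b⁆ := by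
    intro a b z w h1 h2
    have hz' : ∀ g, g * z = z * g := Subgroup.mem_center_iff.1 h1
    have hw' : ∀ g, g * w = w * g := Subgroup.mem_center_iff.1 h2
    rw [commutatorElement_def, commutatorElement_def, mul_inv_rev, mul_inv_rev]
    calc a * z * (b * w) * (z⁻¹ * a⁻¹) * (w⁻¹ * b⁻¹)
        = a * z * ((b * w) * z⁻¹) * (a⁻¹ * w⁻¹) * b⁻¹ := by group
      _ = a * z * (z⁻¹ * (b * w)) * (w⁻¹ * a⁻¹) * b⁻¹ := by
          rw [Subgroup.mem_center_iff.1 (inv_mem h1) (b * w),
            Subgroup.mem_center_iff.1 (inv_mem h2) a⁻¹]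
      _ = a * b * a⁻¹ * b⁻¹ := by group
  have hkey : ∀ a b c d : G, a⁻¹ * c ∈ center G → b⁻¹ * d ∈ center G → ⁅c, d⁆ = ⁅a, b⁆ := by
    intro a b c d h1 h2
    have h3 := hkey' a b _ _ h1 h2
    rwa [mul_inv_cancel_left, mul_inv_cancel_left] at h3
  let f : (G ⧸ center G) × (G ⧸ center G) → commutatorSet G := fun x =>
    ⟨⁅x.1.out, x.2.out⁆, commutator_mem_commutatorSet _ _⟩
  have hf : Function.Surjective f := by
    rintro ⟨_, a, b, rfl⟩
    refine ⟨(QuotientGroup.mk a, QuotientGroup.mk b), Subtype.ext ?_⟩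
    change ⁅(QuotientGroup.mk a : G ⧸ center G).out, (QuotientGroup.mk b : G ⧸ center G).out⁆ = ⁅a, b⁆
    apply hkey
    · rw [← QuotientGroup.eq, QuotientGroup.out_eq']
    · rw [← QuotientGroup.eq, QuotientGroup.out_eq']
  have h1 := Nat.card_le_card_of_surjective f hf
  rw [Nat.card_prod] at h1
  rw [pow_two]
  exact h1

/-- Schur's theorem for a subgroup -/
theorem schur_bound {G : Type} [Group G] [Finite G] (M Z : Subgroup G)
    (hZ : ∀ z ∈ Z, ∀ m ∈ M, m * z = z * m) {e : ℕ} (he : Z.relIndex M ≤ e) :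
    Nat.card (⁅M, M⁆ : Subgroup G) ≤ schur e := by
  have h1 : Nat.card (⁅M, M⁆ : Subgroup G) = Nat.card (_root_.commutator M) := by
    have h2 : (_root_.commutator M).map M.subtype = ⁅M, M⁆ := by
      rw [commutator_def, Subgroup.map_commutator, ← MonoidHom.range_eq_map, Subgroup.range_subtype]
    rw [← h2, Subgroup.card_map_of_injective M.subtype_injective]
  have h3 : Z.subgroupOf M ≤ center M := by
    intro z hz
    rw [Subgroup.mem_center_iff]
    intro m
    exact Subtype.ext (hZ z hz m m.2)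
  have h4 : (center M).index ≤ e :=
    le_trans (Nat.le_of_dvd (Nat.pos_of_ne_zero Subgroup.index_ne_zero_of_finite)
      (Subgroup.index_dvd_of_le h3)) he
  have h5 : 0 < (center M).index := Nat.pos_of_ne_zero Subgroup.index_ne_zero_of_finite
  have h6 := card_commutator_dvd_index_center_pow M
  have h7 := Nat.le_of_dvd (pow_pos h5 _) h6
  rw [h1]
  refine h7.trans ?_
  have h8 : (center M).index * Nat.card (commutatorSet M) + 1 ≤ e * e ^ 2 + 1 := by
    have h9 := card_commutatorSet_le M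
    have h10 : (center M).index ^ 2 ≤ e ^ 2 := Nat.pow_le_pow_left h4 2
    have := Nat.mul_le_mul h4 (h9.trans h10)
    omega
  rw [schur]
  calc (center M).index ^ ((center M).index * Nat.card (commutatorSet M) + 1)
      ≤ e ^ ((center M).index * Nat.card (commutatorSet M) + 1) := Nat.pow_le_pow_left h4 _
    _ ≤ e ^ (e * e ^ 2 + 1) := Nat.pow_le_pow_right (h5.trans_le h4) h8

/-- `p`-part and `p'`-part of a central subgroup -/
theorem exists_split {G : Type} [Group G] [Finite G] {p : ℕ} [hp : Fact p.Prime] (Z : Subgroup G)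
    (hZ : Z ≤ center G) : ∃ P Q : Subgroup G, P ≤ Z ∧ Q ≤ Z ∧ IsPGroup p P ∧
      ¬ p ∣ Nat.card Q ∧ Nat.card Z = Nat.card P * Nat.card Q := by
  obtain ⟨S⟩ : Nonempty (Sylow p Z) := inferInstance
  have hSn : (S : Subgroup Z).Normal := by
    constructor
    intro x hx g
    have h1 : g * x = x * g := by
      apply Subtype.ext
      exact Subgroup.mem_center_iff.1 (hZ x.2) g
    rw [h1, mul_inv_cancel_right]
    exact hx
  have hcop : Nat.Coprime (Nat.card (S : Subgroup Z)) (S : Subgroup Z).index := S.card_coprime_index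
  obtain ⟨H, hH⟩ := Subgroup.exists_right_complement'_of_coprime hcop
  have h1 : Nat.card (S : Subgroup Z) * Nat.card H = Nat.card Z := hH.card_mul_card
  refine ⟨(S : Subgroup Z).map Z.subtype, H.map Z.subtype, Subgroup.map_subtype_le _,
    Subgroup.map_subtype_le _, S.2.map _, ?_, ?_⟩
  · rw [Subgroup.card_map_of_injective Z.subtype_injective]
    have h2 : Nat.card H = (S : Subgroup Z).index := by
      have h3 := (S : Subgroup Z).card_mul_index
      rw [← h1] at h3
      exact (Nat.eq_of_mul_eq_mul_left Nat.card_pos h3).symm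
    rw [h2]
    exact S.not_dvd_index
  · rw [Subgroup.card_map_of_injective Z.subtype_injective,
      Subgroup.card_map_of_injective Z.subtype_injective, h1]

end Basic

section GC

variable {T : Type} [Group T] {R : Subgroup T} {ι : Type} {A : ι → Subgroup T}

theorem perfect_sup (hF : Fam R A) (i : ι) : ⁅A i, A i⁆ ⊔ R = A i := by
  have hR := hF.hR
  have hA := hF.hA i
  have h1 : ⁅A i, A i⁆ ⊔ R ≤ A i := sup_le (A i).commutator_le_self (hF.le i)
  have hN : (⁅A i, A i⁆ ⊔ R).Normal := inferInstance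
  rcases hF.simple i (⁅A i, A i⁆ ⊔ R) le_sup_right h1 (fun a _ x hx => hN.conj_mem x hx a) with h | h
  · exact absurd (le_sup_left.trans h.le) (hF.nonab i)
  · exact h

theorem trick' (hF : Fam R A) (i : ι) {X Y : Subgroup T} (hXn : X.Normal) (hYn : Y.Normal)
    (hX : A i ≤ X ⊔ R) (hY : A i ≤ Y ⊔ R) : A i ≤ ⁅X, Y⁆ ⊔ R := by
  have hR := hF.hR
  have hN : (⁅X, Y⁆ ⊔ R).Normal := inferInstance
  have hkey : ⁅X ⊔ R, Y ⊔ R⁆ ≤ ⁅X, Y⁆ ⊔ R := by
    set f := QuotientGroup.mk' (⁅X, Y⁆ ⊔ R) with hf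
    have hker : f.ker = ⁅X, Y⁆ ⊔ R := QuotientGroup.ker_mk' _
    have hRb : R.map f = ⊥ := by
      rw [Subgroup.map_eq_bot_iff, hker]
      exact le_sup_right
    have h1 : (⁅X ⊔ R, Y ⊔ R⁆).map f = ⊥ := by
      rw [Subgroup.map_commutator, Subgroup.map_sup, Subgroup.map_sup, hRb, sup_bot_eq, sup_bot_eq,
        ← Subgroup.map_commutator, Subgroup.map_eq_bot_iff, hker]
      exact le_sup_left
    rwa [Subgroup.map_eq_bot_iff, hker] at h1
  calc A i = ⁅A i, A i⁆ ⊔ R := (perfect_sup hF i).symm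
    _ ≤ ⁅X ⊔ R, Y ⊔ R⁆ ⊔ R := sup_le_sup_right (Subgroup.commutator_mono hX hY) R
    _ ≤ ⁅X, Y⁆ ⊔ R := sup_le hkey le_sup_right

theorem gc_aux [Finite T] [Fintype ι] (hdir : DIR) (hF : Fam R A) (p : ℕ) [Fact p.Prime] (s : Finset ι)
    (e : ℕ) (hp : ∀ i ∈ s, p ∣ R.relIndex (A i)) (L : ι → Subgroup T) (hLn : ∀ i, (L i).Normal)
    (hLA : ∀ i, L i ≤ A i) (hAL : ∀ i ∈ s, L i ⊔ R = A i)
    (hLL : ∀ i j, i ≠ j → ∀ x ∈ L i, ∀ y ∈ L j, Commute x y)
    (hLpow : ∀ i ∈ s, ∀ x ∈ L i, x ^ bb e = 1)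
    (hcent : ∀ i, R.subgroupOf (L i) ≤ center (L i)) :
    ∃ E : Subgroup T, E.Normal ∧ ∃ PP QQ : Subgroup E,
      CP p s E (fun i => R.relIndex (A i)) PP QQ ∧
      (∀ x ∈ PP, x ^ bb e = 1) ∧ (∀ x ∈ QQ, x ^ bb e = 1) := by
  classical
  have hR := hF.hR
  choose P Q hPZ hQZ hPp hQp hPQ using fun i => exists_split (p := p) (R.subgroupOf (L i)) (hcent i)
  have hLindex : ∀ i ∈ s, R.relIndex (L i) = R.relIndex (A i) := by
    intro i hi
    rw [← hAL i hi, Subgroup.relIndex_sup_right]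
  have hcardL : ∀ i ∈ s, Nat.card (L i) = R.relIndex (A i) * Nat.card (P i) * Nat.card (Q i) := by
    intro i hi
    rw [← hLindex i hi, mul_assoc, ← hPQ i, Subgroup.relIndex, mul_comm, Subgroup.card_mul_index]
  -- the group `E`
  set E : Subgroup T := ⨆ i : s, L i with hE
  have hEn : E.Normal := by
    rw [hE]
    have hLn' : ∀ i : s, (L i).Normal := fun i => hLn i
    exact Subgroup.iSup_normal (fun i : s => L i)
  have hcommL : Pairwise fun i j : s => ∀ x y : T, x ∈ L i → y ∈ L j → Commute x y := by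
    intro i j hij x y hx hy
    exact hLL i j (fun h => hij (Subtype.ext h)) x hx y hy
  let π₀ : (∀ i : s, L i) →* T := Subgroup.noncommPiCoprod hcommL
  have hrange : π₀.range = E := Subgroup.noncommPiCoprod_range
  let π : (∀ i : s, L i) →* E := π₀.codRestrict E (fun x => hrange ▸ ⟨x, rfl⟩)
  have hπval : ∀ x, ((π x : E) : T) = π₀ x := fun x => rfl
  have hπs : Function.Surjective π := by
    rintro ⟨y, hy⟩
    rw [← hrange] at hy
    obtain ⟨x, hx⟩ := hy
    exact ⟨x, Subtype.ext hx⟩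
  set PP : Subgroup E := (Subgroup.pi Set.univ (fun i : s => P i)).map π with hPP
  set QQ : Subgroup E := (Subgroup.pi Set.univ (fun i : s => Q i)).map π with hQQ
  -- images lie in `R`
  have hπR : ∀ x : (∀ i : s, L i), (∀ i, (x i : T) ∈ R) → (π x : T) ∈ R := by
    intro x hx
    rw [hπval]
    have h1 : π₀ x = Finset.noncommProd Finset.univ (fun i => (x i : T))
        (fun i _ j _ hij => hcommL hij _ _ (x i).2 (x j).2) := rfl
    rw [h1]
    exact Subgroup.noncommProd_mem _ _ fun i _ => hx i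
  have hPPR : PP ≤ R.subgroupOf E := by
    rintro _ ⟨x, hx, rfl⟩
    exact hπR x fun i => hPZ i (hx i (Set.mem_univ i))
  have hQQR : QQ ≤ R.subgroupOf E := by
    rintro _ ⟨x, hx, rfl⟩
    exact hπR x fun i => hQZ i (hx i (Set.mem_univ i))
  have hPPp : IsPGroup p PP := by
    apply IsPGroup.map
    rintro ⟨x, hx⟩
    have h1 : ∀ i : s, ∃ k, (x i) ^ p ^ k = 1 := by
      intro i
      obtain ⟨k, hk⟩ := hPp i ⟨x i, hx i (Set.mem_univ i)⟩
      exact ⟨k, congrArg Subtype.val hk⟩
    choose k hk using h1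
    refine ⟨∑ i, k i, Subtype.ext (funext fun i => ?_)⟩
    change (x i) ^ p ^ (∑ i, k i) = 1
    obtain ⟨m, hm⟩ : ∃ m, ∑ i, k i = k i + m :=
      ⟨_, (Nat.add_sub_cancel' (Finset.single_le_sum (fun _ _ => Nat.zero_le _)
        (Finset.mem_univ i))).symm⟩
    rw [hm, pow_add, pow_mul, hk, one_pow]
  have hQQp : ¬ p ∣ Nat.card QQ := by
    intro hdvd
    have h1 : Nat.card QQ ∣ Nat.card (Subgroup.pi Set.univ (fun i : s => Q i)) :=
      Subgroup.card_map_dvd _ _
    have h2 : Nat.card (Subgroup.pi Set.univ (fun i : s => Q i)) = ∏ i : s, Nat.card (Q i) := by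
      rw [← Nat.card_pi]
      refine Nat.card_congr ⟨fun x i => ⟨(x : ∀ i : s, L i) i, x.2 i (Set.mem_univ i)⟩,
        fun x => ⟨fun i => x i, fun i _ => (x i).2⟩, ?_, ?_⟩
      · intro x; rfl
      · intro x; rfl
    have h3 := hdvd.trans h1
    rw [h2, Prime.dvd_finsetProd_iff (Fact.out : p.Prime).prime] at h3
    obtain ⟨i, _, hi⟩ := h3
    exact hQp i hi
  have hdisj : ∀ x ∈ PP, x ∈ QQ → x = 1 := by
    intro x hx hy
    obtain ⟨k, hk⟩ := hPPp ⟨x, hx⟩
    have h1 : x ^ p ^ k = 1 := congrArg Subtype.val hk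
    have h2 : orderOf x ∣ p ^ k := orderOf_dvd_of_pow_eq_one h1
    have h3 : orderOf x ∣ Nat.card QQ := by
      rw [← Subgroup.orderOf_mk x hy]
      exact orderOf_dvd_natCard _
    have h4 : Nat.Coprime (p ^ k) (Nat.card QQ) :=
      Nat.Coprime.pow_left k (((Fact.out : p.Prime).coprime_iff_not_dvd).2 hQQp)
    exact orderOf_eq_one_iff.1 (Nat.eq_one_of_dvd_coprimes h4 h2 h3)
  have hcardPQ : Nat.card PP * Nat.card QQ ≤ Nat.card (R.subgroupOf E) := by
    rw [← Nat.card_prod]
    refine Nat.card_le_card_of_injective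
      (fun x : PP × QQ => (⟨x.1 * x.2, mul_mem (hPPR x.1.2) (hQQR x.2.2)⟩ : R.subgroupOf E)) ?_
    rintro ⟨⟨a, ha⟩, ⟨b, hb⟩⟩ ⟨⟨a', ha'⟩, ⟨b', hb'⟩⟩ h
    have h1 : a * b = a' * b' := congrArg Subtype.val h
    have h2 : a'⁻¹ * a = b' * b⁻¹ := by
      calc a'⁻¹ * a = a'⁻¹ * (a * b) * b⁻¹ := by group
        _ = b' * b⁻¹ := by rw [h1]; group
    have h3 : a'⁻¹ * a = 1 :=
      hdisj _ (mul_mem (inv_mem ha') ha) (h2 ▸ mul_mem hb' (inv_mem hb))
    have h4 : a = a' := (inv_mul_eq_one.1 h3).symm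
    have h5 : b = b' := by
      rw [h3] at h2
      exact (mul_inv_eq_one.1 h2.symm).symm
    subst h4 h5
    rfl
  have hcardE : Nat.card E = (∏ i : s, R.relIndex (A i)) * Nat.card (R.subgroupOf E) := by
    have h1 : R.relIndex E = ∏ i : s, R.relIndex (A i) := by
      have h2 : E ⊔ R = R ⊔ ⨆ i ∈ s, A i := by
        apply le_antisymm
        · refine sup_le (iSup_le fun i => ?_) le_sup_left
          exact (hLA i).trans ((le_iSup₂_of_le (i : ι) i.2 le_rfl : A i ≤ ⨆ i ∈ s, A i).trans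
            le_sup_right)
        · refine sup_le le_sup_right (iSup₂_le fun i hi => ?_)
          rw [← hAL i hi]
          exact sup_le_sup_right (le_iSup (fun i : s => L i) ⟨i, hi⟩) R
      rw [← Subgroup.relIndex_sup_right E R, h2, (hdir T R ι A hF).1 s]
      exact (Finset.prod_coe_sort s fun i => R.relIndex (A i)).symm
    rw [← h1, Subgroup.relIndex, mul_comm, Subgroup.card_mul_index]
  have hpow : ∀ x : (∀ i : s, L i), π x ^ bb e = 1 := by
    intro x
    rw [← map_pow]
    have h1 : x ^ bb e = 1 := by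
      funext i
      exact Subtype.ext (hLpow i i.2 (x i) (x i).2)
    rw [h1, map_one]
  refine ⟨E, hEn, PP, QQ, ⟨fun i : s => L i, inferInstance, inferInstance, π, fun i => P i,
    fun i => Q i, hπs, fun i => (hPZ i).trans (hcent i), fun i => (hQZ i).trans (hcent i),
    fun i => hPp i, fun i => hQp i, fun i => hcardL i i.2, fun i => hp i i.2, rfl, rfl, ?_⟩, ?_, ?_⟩
  · rw [hcardE, mul_comm (∏ i : s, R.relIndex (A i))]
    exact Nat.mul_le_mul_right _ hcardPQ
  · rintro _ ⟨x, _, rfl⟩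
    exact hpow x
  · rintro _ ⟨x, _, rfl⟩
    exact hpow x

theorem gc (hdir : DIR) : GC := by
  classical
  intro T _ _ R ι _ A hF p _ s e hs hn hp
  have hR := hF.hR
  set C : Subgroup T := Subgroup.centralizer (R : Set T) with hC
  have hCn : C.Normal := by rw [hC]; infer_instance
  let M : ι → Subgroup T := fun i => A i ⊓ C
  have hMn : ∀ i, (M i).Normal := fun i => by
    have := hF.hA i
    change (A i ⊓ C).Normal
    infer_instance
  have hCR : ∀ c ∈ C, ∀ x ∈ R, c * x = x * c := fun c hc x hx =>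
    ((Subgroup.mem_centralizer_iff.1 hc) x hx).symm
  -- `A i ≤ M i ⊔ R`
  have hAM : ∀ i ∈ s, A i ≤ M i ⊔ R := by
    intro i hi x hx
    obtain ⟨c, hc, r, hr, rfl⟩ := Subgroup.mem_sup_of_normal_right.1 (hs i hi hx)
    refine mul_mem (mem_sup_left ⟨?_, hc⟩) (mem_sup_right hr)
    have h1 : c * r * r⁻¹ ∈ A i := mul_mem hx (inv_mem (hF.le i hr))
    rwa [mul_inv_cancel_right] at h1
  let L : ι → Subgroup T := fun i => ⁅M i, M i⁆
  have hLn : ∀ i, (L i).Normal := fun i => by
    have := hMn i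
    change (⁅M i, M i⁆ : Subgroup T).Normal
    infer_instance
  have hLM : ∀ i, L i ≤ M i := fun i => (M i).commutator_le_self
  have hLC : ∀ i, L i ≤ C := fun i => (hLM i).trans inf_le_right
  have hLA : ∀ i, L i ≤ A i := fun i => (hLM i).trans inf_le_left
  have hAL : ∀ i ∈ s, L i ⊔ R = A i := fun i hi =>
    le_antisymm (sup_le (hLA i) (hF.le i)) (trick' hF i (hMn i) (hMn i) (hAM i hi) (hAM i hi))
  -- the `L i` commute
  have hLL : ∀ i j, i ≠ j → ∀ x ∈ L i, ∀ y ∈ L j, Commute x y := by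
    intro i j hij x hx y hy
    have hz : ⁅M i, M j⁆ ≤ C ⊓ R := by
      refine le_inf ?_ ?_
      · have := hMn i
        have := hMn j
        exact (Subgroup.commutator_le_inf _ _).trans (inf_le_left.trans inf_le_right)
      · exact (Subgroup.commutator_mono inf_le_left inf_le_left).trans (hF.comm i j hij)
    have hz' : ⁅⁅M i, M j⁆, M i⁆ = ⊥ := by
      rw [Subgroup.commutator_eq_bot_iff_le_centralizer]
      intro z hz1
      rw [Subgroup.mem_centralizer_iff]
      intro m hm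
      exact hCR m hm.2 z (hz hz1).2
    have h1 : ⁅⁅M i, M i⁆, M j⁆ = ⊥ := by
      refine Subgroup.commutator_commutator_eq_bot_of_rotate hz' ?_
      rw [Subgroup.commutator_comm (M j) (M i)]
      exact hz'
    rw [Subgroup.commutator_eq_bot_iff_le_centralizer] at h1
    have h2 := h1 hx
    rw [Subgroup.mem_centralizer_iff] at h2
    exact (h2 y (hLM j hy)).symm
  have hLcard : ∀ i ∈ s, Nat.card (L i) ≤ schur e := by
    intro i hi
    refine schur_bound (M i) R (fun z hz m hm => hCR m hm.2 z hz) ?_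
    have h1 : R.relIndex (M i) = R.relIndex (A i) := by
      have h2 : M i ⊔ R = A i := le_antisymm (sup_le inf_le_left (hF.le i)) (hAM i hi)
      rw [← h2, Subgroup.relIndex_sup_right]
    rw [h1]
    exact hn i hi
  have hLpow : ∀ i ∈ s, ∀ x ∈ L i, x ^ bb e = 1 := by
    intro i hi x hx
    have h1 : orderOf (⟨x, hx⟩ : L i) ∣ Nat.card (L i) := orderOf_dvd_natCard _
    have h2 : Nat.card (L i) ∣ bb e := Nat.dvd_factorial Nat.card_pos (hLcard i hi)
    have h3 := orderOf_dvd_iff_pow_eq_one.1 (h1.trans h2)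
    exact congrArg Subtype.val h3
  -- the splitting of the central subgroups
  have hcent : ∀ i, R.subgroupOf (L i) ≤ center (L i) := by
    intro i z hz
    rw [Subgroup.mem_center_iff]
    intro m
    exact Subtype.ext (hCR m (hLC i m.2) z hz)
  exact gc_aux hdir hF p s e hp L hLn hLA hAL hLL hLpow hcent

end GC

end Pool.Agent.N600.NSC
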